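import Mathlib
import Pool.Agent.TH846.PMDWin

set_option autoImplicit false

namespace Pool.Agent.Results.MP_f8e529_co.HigherRankWindow

open Pool.Agent.TH846.PMDWin
open Pool.Agent.Results.MP_f8e529_co.MaximalityLowRank.PMX

/-- `M` is a perfect matroid design of rank `r` on `Fin N` whose flats of rank `i` have `α i`
points, without loops and without parallel elements. -/
structure IsPMD {N : ℕ} (M : Matroid (Fin N)) (r : ℕ) (α : ℕ → ℕ) : Prop where
  ground : M.E = Set.univ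
  rank : M.eRk M.E = r
  size : ∀ (i : ℕ) (F : Set (Fin N)), M.IsFlat F → M.eRk F = i → F.ncard = α i
  zero : α 0 = 0
  one : α 1 = 1

/-- The hyperplane family is a maximal `A(T,k,v)`, with `k = α (r-1)`, `v = α r` and
`T = {α 0, ..., α (r-2)}`: every `k`-set that is not a hyperplane meets some hyperplane in a
number of points outside `T`. -/
def HyperplanesMaximal {N : ℕ} (M : Matroid (Fin N)) (r : ℕ) (α : ℕ → ℕ) : Prop :=
  ∀ B : Set (Fin N), B.ncard = α (r - 1) →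
    ¬ (M.IsFlat B ∧ M.eRk B = ((r - 1 : ℕ) : ℕ∞)) →
    ∃ H : Set (Fin N), M.IsFlat H ∧ M.eRk H = ((r - 1 : ℕ) : ℕ∞) ∧
      ∀ i, i + 2 ≤ r → (B ∩ H).ncard ≠ α i

lemma toFL' {N : ℕ} {M : Matroid (Fin N)} {r : ℕ} {α : ℕ → ℕ} (hr : 1 ≤ r) (h : IsPMD M r α) :
    ∃ (E : Finset (Fin N)) (Fl : ℕ → Finset (Finset (Fin N))) (a : ℕ → ℕ), FL E Fl a r ∧
      (E : Set (Fin N)) = M.E ∧
      (∀ (i : ℕ) (F : Finset (Fin N)),
        F ∈ Fl i ↔ M.IsFlat (F : Set (Fin N)) ∧ M.eRk (F : Set (Fin N)) = i) ∧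
      (∀ i ≤ r, a i = α i) := by
  have hMf : M.Finite := ⟨Set.toFinite _⟩
  have hfin : ∀ F : Set (Fin N), M.IsFlat F → ∃ i : ℕ, M.eRk F = i := by
    intro F hF
    have h2 : M.eRk F ≠ ⊤ := by
      have h3 := M.eRk_mono hF.subset_ground
      rw [h.rank] at h3
      intro h4; rw [h4] at h3; exact absurd h3 (by simp)
    obtain ⟨n, hn⟩ := ENat.ne_top_iff_exists.1 h2
    exact ⟨n, hn.symm⟩
  obtain ⟨E, Fl, a, hFL, hEE, hFl⟩ := toFL (M := M)
    (fun F₁ F₂ h1 h2 h3 => by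
      obtain ⟨i, hi⟩ := hfin F₁ h1
      rw [h.size i F₁ h1 hi, h.size i F₂ h2 (by rw [← h3, hi])])
    (fun F h1 h2 => by rw [h.size 0 F h1 (by rw [h2]; rfl), h.zero])
    (fun F h1 h2 => by rw [h.size 1 F h1 (by rw [h2]; rfl), h.one])
    r h.rank hr
  refine ⟨E, Fl, a, hFL, hEE, hFl, ?_⟩
  intro i hi
  obtain ⟨F, hF⟩ := hFL.exists_fl i hi
  rw [← hFL.card i F hF]
  have h1 := (hFl i F).1 hF
  rw [← h.size i F h1.1 h1.2, Set.ncard_coe_finset]

/-- the reduction to the finite combinatorial statement -/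
lemma reduce {N : ℕ} {M : Matroid (Fin N)} {ρ n : ℕ} {α : ℕ → ℕ}
    (h : IsPMD M (ρ + 3) α) (hn : n * (α (ρ + 2) - α (ρ + 1)) = α (ρ + 3) - α (ρ + 2))
    (hc : ∀ (E : Finset (Fin N)) (Fl : ℕ → Finset (Finset (Fin N))) (a : ℕ → ℕ),
      FL E Fl a (ρ + 3) → (∀ i ≤ ρ + 3, a i = α i) → ∀ B ⊆ E, B.card = a (ρ + 2) →
      (∀ H ∈ Fl (ρ + 2), ∃ i ≤ ρ + 1, (B ∩ H).card = a i) →
      n * (a (ρ + 2) - a (ρ + 1)) = a (ρ + 3) - a (ρ + 2) → False) :
    HyperplanesMaximal M (ρ + 3) α := by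
  classical
  obtain ⟨E, Fl, a, hFL, hEE, hFl, haα⟩ := toFL' (by omega) h
  intro B hBc _
  by_contra hcon
  push Not at hcon
  have e1 : ρ + 3 - 1 = ρ + 2 := by omega
  rw [e1] at hBc hcon
  have hBE : B.toFinset ⊆ E := by
    intro x hx
    rw [← Finset.mem_coe, hEE, h.ground]; trivial
  have hBk : B.toFinset.card = a (ρ + 2) := by
    rw [haα (ρ + 2) (by omega), ← hBc, Set.ncard_eq_toFinset_card']
  refine hc E Fl a hFL haα B.toFinset hBE hBk ?_ ?_
  · intro H hH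
    have hH' := (hFl _ H).1 hH
    obtain ⟨i, hi, hc⟩ := hcon H hH'.1 hH'.2
    refine ⟨i, by omega, ?_⟩
    rw [haα i (by omega), ← hc, ← Set.ncard_coe_finset]
    congr 1
    simp
  · rw [haα _ (by omega), haα _ (by omega), haα _ (by omega)]; exact hn

theorem general {N : ℕ} {M : Matroid (Fin N)} {r n : ℕ} {α : ℕ → ℕ} (hr : 5 ≤ r)
    (h : IsPMD M r α) (hn : n * (α (r - 1) - α (r - 2)) = α r - α (r - 1))
    (h3 : ∀ i, 2 ≤ i → i + 3 ≤ r → ∀ d, 1 ≤ d → d < α i - α (i - 1) →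
      (α (i + 1) - α i) ∣ n * d → α (r - 1) - α i < n * d)
    (h4 : ∀ i m, 2 ≤ i → i < m → m + 3 ≤ r →
      (α (r - 1) - α (i + 1) < n * (α (i + 1) - α i)) ∨
      (∀ q, q * (α (m + 1) - α m) = α (m + 2) - α (m + 1) →
        ∀ d, 1 ≤ d → d < α i - α (i - 1) → (α (i + 1) - α i) ∣ q * d →
          α (min (m + 1) (r - 3)) - α i < q * d)) : HyperplanesMaximal M r α := by
  obtain ⟨ρ, rfl⟩ : ∃ ρ, r = ρ + 3 := ⟨r - 3, by omega⟩
  have e1 : ρ + 3 - 1 = ρ + 2 := by omega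
  have e2 : ρ + 3 - 2 = ρ + 1 := by omega
  have e3 : ρ + 3 - 3 = ρ := by omega
  rw [e1] at hn h3 h4
  rw [e2] at hn
  rw [e3] at h4
  refine reduce h hn ?_
  intro E Fl a hFL haα B hB hBk hH hn'
  refine main5 hFL (by omega) hB hBk hH hn' ?_ ?_
  · intro i hi2 hiρ d hd1 hd2 hd3
    rw [haα i (by omega), haα (i - 1) (by omega)] at hd2
    rw [haα (i + 1) (by omega), haα i (by omega)] at hd3
    rw [haα (ρ + 2) (by omega), haα i (by omega)]
    exact h3 i hi2 (by omega) d hd1 hd2 hd3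
  · intro i m hi him hm
    rw [haα (ρ + 2) (by omega), haα (i + 1) (by omega), haα i (by omega), haα (i - 1) (by omega),
      haα (m + 1) (by omega), haα (m + 2) (by omega), haα m (by omega),
      haα (min (m + 1) ρ) (by omega)]
    exact h4 i m hi him (by omega)

theorem large {N : ℕ} {M : Matroid (Fin N)} {r : ℕ} {α : ℕ → ℕ} (hr : 5 ≤ r)
    (h : IsPMD M r α)
    (hv : (α (r - 1) - α 2) * (α (r - 1) - α (r - 2)) < α r - α (r - 1)) :
    HyperplanesMaximal M r α := by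
  obtain ⟨E, Fl, a, hFL, hEE, hFl, haα⟩ := toFL' (by omega) h
  have s1 := hFL.a_lt (i := r - 2) (j := r - 1) (by omega) (by omega)
  have s2 := hFL.a_lt (i := r - 1) (j := r) (by omega) (by omega)
  obtain ⟨n, hn⟩ : (α (r - 1) - α (r - 2)) ∣ α r - α (r - 1) := by
    have h1 := step_dvd hFL (i := r - 2) (j := r) (by omega) le_rfl
    rw [show r - 2 + 1 = r - 1 by omega] at h1
    have h2 := Nat.dvd_sub h1 (dvd_refl (a (r - 1) - a (r - 2)))
    rw [show a r - a (r - 2) - (a (r - 1) - a (r - 2)) = a r - a (r - 1) by omega] at h2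
    rwa [haα _ (by omega), haα _ (by omega), haα _ (by omega)] at h2
  have hn' : n * (α (r - 1) - α (r - 2)) = α r - α (r - 1) := by rw [hn, mul_comm]
  have hbig : α (r - 1) - α 2 < n := by
    rw [← hn'] at hv
    exact lt_of_mul_lt_mul_right hv (Nat.zero_le _)
  refine general hr h hn' ?_ ?_
  · intro i hi2 hi3 d hd1 _ _
    have h1 := hFL.a_le (i := 2) (j := i) hi2 (by omega)
    rw [haα 2 (by omega), haα i (by omega)] at h1
    have h2 : n * 1 ≤ n * d := Nat.mul_le_mul_left _ hd1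
    omega
  · intro i m hi him hm
    left
    have h1 := hFL.a_lt (i := i) (j := i + 1) (by omega) (by omega)
    have h3 := hFL.a_le (i := 2) (j := i + 1) (by omega) (by omega)
    rw [haα i (by omega), haα (i + 1) (by omega)] at h1
    rw [haα 2 (by omega), haα (i + 1) (by omega)] at h3
    have h2 : n * 1 ≤ n * (α (i + 1) - α i) := Nat.mul_le_mul_left _ (by omega)
    omega

/-- if `gcd (q, D) * D' ≤ D` then no `d < D'` satisfies `D ∣ q d` -/
lemma gcd_aux {q D D' d : ℕ} (hD : 0 < D) (hg : Nat.gcd q D * D' ≤ D) (hd1 : 1 ≤ d)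
    (hd2 : d < D') (hd3 : D ∣ q * d) : False := by
  have h5 : D ∣ Nat.gcd q D * d := by
    rw [← Nat.gcd_mul_right]
    exact Nat.dvd_gcd hd3 (Dvd.intro _ rfl)
  have h6 : 0 < Nat.gcd q D := Nat.gcd_pos_of_pos_right _ hD
  have h7 := Nat.le_of_dvd (Nat.mul_pos h6 (by omega)) h5
  have h8 : Nat.gcd q D * d < Nat.gcd q D * D' := Nat.mul_lt_mul_of_pos_left hd2 h6
  omega

theorem gcdForm {N : ℕ} {M : Matroid (Fin N)} {r n : ℕ} {α : ℕ → ℕ} (hr : 5 ≤ r)
    (h : IsPMD M r α) (hn : n * (α (r - 1) - α (r - 2)) = α r - α (r - 1))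
    (h3 : ∀ i, 2 ≤ i → i + 3 ≤ r →
      Nat.gcd n (α (i + 1) - α i) * (α i - α (i - 1)) ≤ α (i + 1) - α i)
    (h4 : ∀ i m, 2 ≤ i → i < m → m + 3 ≤ r →
      Nat.gcd ((α (m + 2) - α (m + 1)) / (α (m + 1) - α m)) (α (i + 1) - α i) *
        (α i - α (i - 1)) ≤ α (i + 1) - α i) : HyperplanesMaximal M r α := by
  obtain ⟨E, Fl, a, hFL, hEE, hFl, haα⟩ := toFL' (by omega) h
  refine general hr h hn ?_ ?_
  · intro i hi2 hi3 d hd1 hd2 hd3
    have h1 := hFL.a_lt (i := i) (j := i + 1) (by omega) (by omega)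
    rw [haα i (by omega), haα (i + 1) (by omega)] at h1
    exact (gcd_aux (by omega) (h3 i hi2 hi3) hd1 hd2 hd3).elim
  · intro i m hi him hm
    right
    intro q hq d hd1 hd2 hd3
    have h1 := hFL.a_lt (i := i) (j := i + 1) (by omega) (by omega)
    rw [haα i (by omega), haα (i + 1) (by omega)] at h1
    have h2 := hFL.a_lt (i := m) (j := m + 1) (by omega) (by omega)
    rw [haα m (by omega), haα (m + 1) (by omega)] at h2
    have h5 : (α (m + 2) - α (m + 1)) / (α (m + 1) - α m) = q := by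
      rw [← hq]; exact Nat.mul_div_cancel _ (by omega)
    have h6 := h4 i m hi him hm
    rw [h5] at h6
    exact (gcd_aux (by omega) h6 hd1 hd2 hd3).elim

theorem rankFive {N : ℕ} {M : Matroid (Fin N)} {n : ℕ} {α : ℕ → ℕ}
    (h : IsPMD M 5 α) (hn : n * (α 4 - α 3) = α 5 - α 4)
    (hg : ¬ ∃ d, 1 ≤ d ∧ d + 1 < α 2 ∧ (α 3 - α 2) ∣ n * d ∧ n * d ≤ α 4 - α 2 ∧
      (α 4 - α 2) ∣ n * (n + 1) * d) :
    HyperplanesMaximal M 5 α := by
  refine reduce (ρ := 2) h hn ?_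
  intro E Fl a hFL haα B hB hBk hH hn'
  apply hg
  obtain ⟨d, h1, h2, h3, h4, h5⟩ := rank5 hFL hB hBk hH hn'
  rw [haα 2 (by omega)] at h2 h3 h4 h5
  rw [haα 3 (by omega)] at h3
  rw [haα 4 (by omega)] at h4 h5
  exact ⟨d, h1, h2, h3, h4, h5⟩

/-- Let `M` be a perfect matroid design of rank `r ≥ 5` with flat sizes
`0, 1, α 2, ..., α (r-2), k = α (r-1), v = α r`, put `D i = α i - α (i-1)` and
`n = (v - k) / (k - α (r-2))`, so that `n + 1` hyperplanes pass through every flat of rank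
`r - 2`.  Suppose that

(N) there are no `2 ≤ i ≤ r - 3` and `1 ≤ d < D i` with `D (i+1) ∣ n d` and `n d ≤ k - α i`
(for `r = 5` only those `d` with `(k - α 2) ∣ n (n + 1) d` have to be excluded), and

(Q) for all `2 ≤ i < m ≤ r - 3` either `n D (i+1) > k - α (i+1)`, or there is no `1 ≤ d < D i`
with `D (i+1) ∣ q d` and `q d ≤ α (min (m+1) (r-3)) - α i`, where `q = D (m+2) / D (m+1)`.

Then the hyperplane family of `M` is maximal.  ((Q) is empty for `r = 5`; both (N) and (Q) hold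
when `v - k > (k - α 2) (k - α (r-2))`, see `large`, and when
`gcd (n, D (i+1)) ≤ D (i+1) / D i` for `2 ≤ i ≤ r - 3` and
`gcd (D (m+2) / D (m+1), D (i+1)) ≤ D (i+1) / D i` for `2 ≤ i < m ≤ r - 3`, see `gcdForm`.) -/
theorem result :
    ∀ (N : ℕ) (M : Matroid (Fin N)) (r n : ℕ) (α : ℕ → ℕ), 5 ≤ r → IsPMD M r α →
      n * (α (r - 1) - α (r - 2)) = α r - α (r - 1) →
      (∀ i, 2 ≤ i → i + 3 ≤ r → ∀ d, 1 ≤ d → d < α i - α (i - 1) →
        (α (i + 1) - α i) ∣ n * d →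
        (r = 5 → (α (r - 1) - α i) ∣ n * (n + 1) * d) →
        α (r - 1) - α i < n * d) →
      (∀ i m, 2 ≤ i → i < m → m + 3 ≤ r →
        (α (r - 1) - α (i + 1) < n * (α (i + 1) - α i)) ∨
        (∀ q, q * (α (m + 1) - α m) = α (m + 2) - α (m + 1) →
          ∀ d, 1 ≤ d → d < α i - α (i - 1) → (α (i + 1) - α i) ∣ q * d →
            α (min (m + 1) (r - 3)) - α i < q * d)) →
      HyperplanesMaximal M r α := by
  intro N M r n α hr h hn h3 h4
  rcases Nat.eq_or_lt_of_le hr with h5 | h5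
  · obtain rfl : r = 5 := h5.symm
    refine rankFive h hn ?_
    rintro ⟨d, k1, k2, k3, k4, k5⟩
    have k6 := h3 2 le_rfl le_rfl d k1 (by
      show d < α 2 - α 1
      rw [h.one]; omega) k3 (fun _ => k5)
    have k7 : n * d ≤ α (5 - 1) - α 2 := k4
    omega
  · refine general hr h hn ?_ h4
    intro i hi2 hi3 d hd1 hd2 hd3
    exact h3 i hi2 hi3 d hd1 hd2 hd3 (fun h6 => by omega)

end Pool.Agent.Results.MP_f8e529_co.HigherRankWindow
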